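import Pool.Agent.Helper49.TP.StW

/-!
# Project TP, module CNW: concentration of a weighted sum
-/

set_option autoImplicit false

namespace Pool.Agent.Helper10.TP

open Finset Pool.Agent.Helper49.TP Pool.Agent.Helper93.IA Pool.Agent.Helper57.IA

section

variable {V : Type} [Fintype V] [DecidableEq V]

/-- The weighted sum. -/
noncomputable def ws (F : V → ℝ) (σ : V → Bool) : ℝ := ∑ v, (if σ v = true then F v else 0)

theorem ex_ws (ξ : ℝ) (F : V → ℝ) : Ex (wB fun _ : V => ξ) (ws F) = ξ * ∑ v, F v := by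
  have h : ws F = fun σ => ∑ v, F v * (if σ v = true then 1 else 0) := by
    funext σ
    unfold ws
    exact sum_congr rfl fun v _ => by split_ifs <;> simp
  rw [h, ex_sum, mul_sum]
  refine sum_congr rfl fun v _ => ?_
  rw [ex_mul, ex_bit]
  ring

theorem ws_osc (F : V → ℝ) (hF : ∀ v, 0 ≤ F v ∧ F v ≤ 1) (i : V) (σ : V → Bool) (u u' : Bool) :
    |ws F (Function.update σ i u) - ws F (Function.update σ i u')| ≤ 1 := by
  unfold ws
  rw [← sum_sub_distrib, sum_eq_single i]
  · rw [Function.update_self, Function.update_self]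
    have h := hF i
    rw [abs_le]
    constructor <;> split_ifs <;> linarith [h.1, h.2]
  · intro v _ hv
    rw [Function.update_of_ne hv, Function.update_of_ne hv, sub_self]
  · intro h
    exact absurd (mem_univ i) h

theorem cnw_tail (hBRN : StBRN) (ξ : ℝ) (h0 : 0 ≤ ξ) (h1 : ξ ≤ 1) (f : (V → Bool) → ℝ)
    (ho : ∀ i σ u u', |f (Function.update σ i u) - f (Function.update σ i u')| ≤ 1)
    (l t : ℝ) (hl : 0 ≤ l) (hl1 : l ≤ 1) :
    Pr (wB fun _ : V => ξ) (fun σ => Ex (wB fun _ : V => ξ) f + t ≤ f σ) ≤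
      Real.exp (-l * t + 2 * l ^ 2 * Fintype.card V) := by
  classical
  have hp : ∀ i : V, 0 ≤ (fun _ : V => ξ) i ∧ (fun _ : V => ξ) i ≤ 1 := fun _ => ⟨h0, h1⟩
  have h := hBRN V (fun _ => Bool) (wB fun _ : V => ξ) f 1 t l (fun _ => 1)
    (wB_nonneg _ hp) (wB_sum _) ho (fun i σ => ⟨f (Function.update σ i false), by
      have h2 : ∀ u : Bool, wB (fun _ : V => ξ) i u * (f (Function.update σ i u) -
          f (Function.update σ i false)) ^ 2 ≤ wB (fun _ : V => ξ) i u * 1 := by
        intro u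
        apply mul_le_mul_of_nonneg_left _ (wB_nonneg _ hp i u)
        have h3 := ho i σ u false
        rw [← sq_abs]
        exact pow_le_one₀ (abs_nonneg _) h3
      calc _ ≤ ∑ u, wB (fun _ : V => ξ) i u * 1 := sum_le_sum fun u _ => h2 u
        _ = 1 := by rw [← sum_mul, wB_sum, one_mul]⟩) hl (by linarith)
  have h2 : Pr (wB fun _ : V => ξ) (fun σ => Ex (wB fun _ : V => ξ) f + t ≤ f σ) =
      Ex (wB fun _ : V => ξ) (fun σ => if Ex (wB fun _ : V => ξ) f + t ≤ f σ then 1 else 0) := by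
    unfold Pr
    congr 1
  rw [h2]
  refine h.trans (Real.exp_le_exp.2 ?_)
  have h3 : ∑ _i : V, (1 : ℝ) = Fintype.card V := by simp
  rw [h3]
  nlinarith [mul_nonneg (sq_nonneg l) (Nat.cast_nonneg (α := ℝ) (Fintype.card V))]

end

theorem hCNW : StCNW := by
  intro hBRN V _ _ ξ F l t h0 h1 hF hl hl1
  have hE := ex_ws ξ F
  have ho := ws_osc F hF
  have a1 := cnw_tail hBRN ξ h0 h1 (ws F) ho l t hl hl1
  have a2 := cnw_tail hBRN ξ h0 h1 (fun σ => - ws F σ) (fun i σ u u' => by
    have h3 := ho i σ u' u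
    have h4 : -ws F (Function.update σ i u) - -ws F (Function.update σ i u') =
      ws F (Function.update σ i u') - ws F (Function.update σ i u) := by ring
    rw [h4]
    exact h3) l t hl hl1
  rw [ex_neg, hE] at a2
  rw [hE] at a1
  have hp : ∀ i : V, 0 ≤ (fun _ : V => ξ) i ∧ (fun _ : V => ξ) i ≤ 1 := fun _ => ⟨h0, h1⟩
  have b1 := pr_mono (wB fun _ : V => ξ) (wB_nonneg _ hp)
    (fun σ => t < |∑ v, (if σ v = true then F v else 0) - ξ * ∑ v, F v|)
    (fun σ => ξ * ∑ v, F v + t ≤ ws F σ ∨ -(ξ * ∑ v, F v) + t ≤ -ws F σ) (by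
      intro σ hσ
      have e : ws F σ = ∑ v, (if σ v = true then F v else 0) := rfl
      rw [← e] at hσ
      rcases lt_abs.1 hσ with h5 | h5
      · left; linarith
      · right; linarith)
  have b2 := pr_or (wB fun _ : V => ξ) (wB_nonneg _ hp) (fun σ => ξ * ∑ v, F v + t ≤ ws F σ)
    (fun σ => -(ξ * ∑ v, F v) + t ≤ -ws F σ)
  linarith

end Pool.Agent.Helper10.TP
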