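import Pool.Agent.Helper49.TP.StG

/-!
# Project TP, module FUN: averages over a transitive group
-/

set_option autoImplicit false

namespace Pool.Agent.Helper10.TP

open Finset Pool.Agent.Helper49.TP Pool.Agent.Helper93.IA

theorem hFUN : StFUN := by
  intro Γ _ _ n π htr c0 φ
  have h1 : ∀ c, ∑ g, φ (π g c) = ∑ g, φ (π g c0) := by
    intro c
    obtain ⟨k, hk⟩ := htr c0 c
    have h2 : ∀ g, φ (π g c) = φ (π (Equiv.mulRight k g) c0) := by
      intro g
      rw [Equiv.coe_mulRight, map_mul, Equiv.Perm.mul_apply, hk]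
    rw [Finset.sum_congr rfl fun g _ => h2 g]
    exact Equiv.sum_comp (Equiv.mulRight k) fun g => φ (π g c0)
  have h2 : ∑ c : Fin n, ∑ g, φ (π g c) = (n : ℝ) * ∑ g, φ (π g c0) := by
    rw [Finset.sum_congr rfl fun c _ => h1 c, Finset.sum_const, Finset.card_univ,
      Fintype.card_fin, nsmul_eq_mul]
  have h3 : ∑ c : Fin n, ∑ g, φ (π g c) = Fintype.card Γ * ∑ c, φ c := by
    rw [Finset.sum_comm, Finset.sum_congr rfl fun g _ => Equiv.sum_comp (π g) φ,
      Finset.sum_const, Finset.card_univ, nsmul_eq_mul]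
  rw [← h2, h3]

end Pool.Agent.Helper10.TP
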