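import Pool.Agent.Helper49.TP.Sym

/-!
# Project TP, module SHB: a cyclic transitive example
-/

set_option autoImplicit false

namespace Pool.Agent.Helper10.TP

open Finset Pool.Agent.Helper49.TP Pool.Agent.Helper92.Proto

section

variable {N : ℕ} (k : ℕ)

/-- The even elements `2 d`, `d < k`. -/
def SS (N k : ℕ) : Finset (Fin (2 * N)) := univ.filter fun x => x.val % 2 = 0 ∧ x.val / 2 < k

theorem card_SS (hk : k ≤ N) : (SS N k).card = k := by
  have h : (SS N k).card = (range k).card := by
    refine Finset.card_bij (fun x _ => x.val / 2) ?_ ?_ ?_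
    · intro x hx
      exact mem_range.mpr (mem_filter.mp hx).2.2
    · intro x hx y hy h
      have h1 := (mem_filter.mp hx).2.1
      have h2 := (mem_filter.mp hy).2.1
      apply Fin.ext
      have h' : x.val / 2 = y.val / 2 := h
      omega
    · intro d hd
      have hd' := mem_range.mp hd
      refine ⟨⟨2 * d, by omega⟩, ?_, ?_⟩
      · refine mem_filter.mpr ⟨mem_univ _, ?_, ?_⟩
        · show 2 * d % 2 = 0
          omega
        · show 2 * d / 2 < k
          omega
      · show 2 * d / 2 = d
        omega
  rw [h, card_range]

/-- The array. -/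
def PP (i j : Fin (2 * N)) : Option (Fin (2 * N)) :=
  if j - i ∈ SS N k then some (j + (j - i)) else none

theorem PP_some (i j s : Fin (2 * N)) :
    PP k i j = some s ↔ j - i ∈ SS N k ∧ j + (j - i) = s := by
  unfold PP
  split_ifs with h <;> simp [h]

theorem PP_ne (i j : Fin (2 * N)) : PP k i j ≠ none ↔ j - i ∈ SS N k := by
  unfold PP
  split_ifs with h <;> simp [h]

theorem val_add_mod (x y : Fin (2 * N)) : (x + y).val % 2 = (x.val + y.val) % 2 := by
  rw [Fin.val_add, Nat.mod_mul_right_mod]

theorem SS_double (hN : Odd N) (x y : Fin (2 * N)) (hx : x ∈ SS N k) (hy : y ∈ SS N k)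
    (h : x + x = y + y) : x = y := by
  have h1 := (mem_filter.mp hx).2.1
  have h2 := (mem_filter.mp hy).2.1
  have h3 := congrArg Fin.val h
  rw [Fin.val_add, Fin.val_add] at h3
  have hx' := x.isLt
  have hy' := y.isLt
  obtain ⟨t, ht⟩ := hN
  apply Fin.ext
  have e1 : ∀ a : ℕ, a < 2 * N → (a + a) % (2 * N) = if a < N then 2 * a else 2 * a - 2 * N := by
    intro a ha
    split_ifs with hc
    · rw [Nat.mod_eq_of_lt (by omega)]
      ring
    · rw [Nat.mod_eq_sub_mod (by omega), Nat.mod_eq_of_lt (by omega)]
      omega
  rw [e1 _ hx', e1 _ hy'] at h3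
  split_ifs at h3 <;> omega

end

theorem hSHB : StSHB := by
  intro N k hN hk
  have hN0 : 0 < N := hN.pos
  have : NeZero (2 * N) := ⟨by omega⟩
  have hcard := card_SS k hk
  have hpar : ∀ r c s : Fin (2 * N), PP k r c = some s →
      (decide (r.val % 2 = 1) = decide (c.val % 2 = 1)) ∧
        (decide (c.val % 2 = 1) = decide (s.val % 2 = 1)) := by
    intro r c s h
    obtain ⟨h1, h2⟩ := (PP_some k r c s).mp h
    have h3 := (mem_filter.mp h1).2.1
    have h4 : r + (c - r) = c := by abel
    have h5 := val_add_mod r (c - r)
    have h6 := val_add_mod c (c - r)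
    rw [h4] at h5
    rw [h2] at h6
    have h7 : r.val % 2 = c.val % 2 := by omega
    have h8 : c.val % 2 = s.val % 2 := by omega
    rw [h7, h8]
    exact ⟨rfl, rfl⟩
  have haut : ∀ t : Fin (2 * N), IsAutotopism (PP (N := N) k) (Equiv.addRight t)
      (Equiv.addRight t) (Equiv.addRight t) := by
    intro t r c s
    rw [PP_some, PP_some]
    have e1 : (Equiv.addRight t) c - (Equiv.addRight t) r = c - r := by
      simp only [Equiv.coe_addRight]
      abel
    have e2 : (Equiv.addRight t) c + (c - r) = c + (c - r) + t := by
      simp only [Equiv.coe_addRight]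
      abel
    have e3 : (Equiv.addRight t) s = s + t := rfl
    rw [e1, e2, e3, add_left_inj]
  refine ⟨PP k, fun r => decide (r.val % 2 = 1), ?_, ?_, hpar, ?_, ?_, ?_⟩
  · constructor
    · intro r c c' s h h'
      obtain ⟨h1, h2⟩ := (PP_some k r c s).mp h
      obtain ⟨h3, h4⟩ := (PP_some k r c' s).mp h'
      have h5 : (c - r) + (c - r) = (c' - r) + (c' - r) := by
        have h6 : c + (c - r) = c' + (c' - r) := h2.trans h4.symm
        calc (c - r) + (c - r) = (c + (c - r)) - r := by abel
          _ = (c' + (c' - r)) - r := by rw [h6]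
          _ = _ := by abel
      have h6 := SS_double k hN _ _ h1 h3 h5
      exact sub_left_inj.mp h6
    · intro r r' c s h h'
      obtain ⟨-, h2⟩ := (PP_some k r c s).mp h
      obtain ⟨-, h4⟩ := (PP_some k r' c s).mp h'
      have h5 := add_left_cancel (h2.trans h4.symm)
      exact sub_right_inj.mp h5
    · intro s
      refine Eq.trans ?_ hcard
      symm
      refine Finset.card_bij (fun x _ => (s - x - x, s - x)) ?_ ?_ ?_
      · intro x hx
        refine mem_filter.mpr ⟨mem_univ _, ?_⟩
        rw [PP_some]
        have e : s - x - (s - x - x) = x := by abel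
        simp only [e]
        exact ⟨hx, by abel⟩
      · intro x _ y _ h
        exact sub_right_inj.mp (Prod.ext_iff.mp h).2
      · rintro ⟨r, c⟩ h
        obtain ⟨h1, h2⟩ := (PP_some k r c s).mp (mem_filter.mp h).2
        refine ⟨c - r, h1, ?_⟩
        rw [← h2]
        ext1
        · show c + (c - r) - (c - r) - (c - r) = r
          abel
        · show c + (c - r) - (c - r) = c
          abel
    · intro r
      refine Eq.trans ?_ hcard
      symm
      refine Finset.card_bij (fun x _ => r + x) ?_ ?_ ?_
      · intro x hx
        refine mem_filter.mpr ⟨mem_univ _, ?_⟩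
        rw [PP_ne]
        have e : r + x - r = x := by abel
        rw [e]
        exact hx
      · intro x _ y _ h
        exact add_left_cancel h
      · intro c h
        refine ⟨c - r, (PP_ne k r c).mp (mem_filter.mp h).2, ?_⟩
        show r + (c - r) = c
        abel
    · intro c
      refine Eq.trans ?_ hcard
      symm
      refine Finset.card_bij (fun x _ => c - x) ?_ ?_ ?_
      · intro x hx
        refine mem_filter.mpr ⟨mem_univ _, ?_⟩
        rw [PP_ne]
        have e : c - (c - x) = x := by abel
        rw [e]
        exact hx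
      · intro x _ y _ h
        exact sub_right_inj.mp h
      · intro r h
        refine ⟨c - r, (PP_ne k r c).mp (mem_filter.mp h).2, ?_⟩
        show c - (c - r) = r
        abel
  · have h : (univ.filter fun r : Fin (2 * N) => decide (r.val % 2 = 1) = true).card =
        (range N).card := by
      refine Finset.card_bij (fun x _ => x.val / 2) ?_ ?_ ?_
      · intro x _
        have := x.isLt
        exact mem_range.mpr (by omega)
      · intro x hx y hy h
        have h1 := of_decide_eq_true (mem_filter.mp hx).2
        have h2 := of_decide_eq_true (mem_filter.mp hy).2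
        apply Fin.ext
        have h' : x.val / 2 = y.val / 2 := h
        omega
      · intro d hd
        have hd' := mem_range.mp hd
        refine ⟨⟨2 * d + 1, by omega⟩, ?_, ?_⟩
        · refine mem_filter.mpr ⟨mem_univ _, decide_eq_true ?_⟩
          show (2 * d + 1) % 2 = 1
          omega
        · show (2 * d + 1) / 2 = d
          omega
    rw [h, card_range]
  · intro r r'
    exact ⟨_, _, _, haut (r' - r), by simp⟩
  · intro r r'
    exact ⟨_, _, _, haut (r' - r), by simp⟩
  · intro r r'
    exact ⟨_, _, _, haut (r' - r), by simp⟩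

end Pool.Agent.Helper10.TP
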